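import Pool.Agent.Y503.ST.Final

set_option autoImplicit false

open Set Filter Topology MeasureTheory

namespace Pool.Agent.Results.MP_31144c_an.TangentialNullValues

open Pool.Agent.H800R2.Stolz Pool.Agent.Y503.ST

/-- Let `μ` be any s-finite Borel measure on the plane and `D` any countable set of complex
numbers. There is a function `f` analytic in the unit disk such that for almost every point
`P = exp (iθ)` of the unit circle: `f` is unbounded on the radius at `P`; `f` has no finite limit at
`P` within any Stolz angle at `P`; the set of the values taken infinitely often as `z → P` within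
any Stolz angle is contained in the set of those taken infinitely often as `z → P` within the
larger (tangential) region `wide P`; and the latter set is `μ`-null and contains no point of `D`.
In particular (second part) it is not true that for every `f` analytic in the unit disk almost
every `P` is of type (a) or such that for every Stolz angle `S` at `P` the complement of `V f P S`
has planar measure zero. -/
theorem result :
    (∀ (μ : Measure ℂ) [SFinite μ] (D : Set ℂ), D.Countable →
      ∃ f : ℂ → ℂ, DifferentiableOn ℂ f (Metric.ball 0 1) ∧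
        ∀ᵐ θ : ℝ,
          (∀ B : ℝ, ∃ᶠ r : ℝ in 𝓝[<] 1, B < ‖f (r * Complex.exp (θ * Complex.I))‖) ∧
          (∀ C > 1, ∀ δ > 0, ¬ ∃ w : ℂ, Tendsto f
            (𝓝[stolz (Complex.exp (θ * Complex.I)) C δ] (Complex.exp (θ * Complex.I))) (𝓝 w)) ∧
          (∀ C > 1, ∀ δ > 0,
            V f (Complex.exp (θ * Complex.I)) (stolz (Complex.exp (θ * Complex.I)) C δ) ⊆
              V f (Complex.exp (θ * Complex.I)) (wide (Complex.exp (θ * Complex.I)))) ∧
          μ (V f (Complex.exp (θ * Complex.I)) (wide (Complex.exp (θ * Complex.I)))) = 0 ∧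
          Disjoint D
            (V f (Complex.exp (θ * Complex.I)) (wide (Complex.exp (θ * Complex.I))))) ∧
    ¬ ∀ f : ℂ → ℂ, DifferentiableOn ℂ f (Metric.ball 0 1) →
      ∀ᵐ θ : ℝ, TypeA f (Complex.exp (θ * Complex.I)) ∨ ∀ C > 1, ∀ δ > 0,
        volume (V f (Complex.exp (θ * Complex.I))
          (stolz (Complex.exp (θ * Complex.I)) C δ))ᶜ = 0 := by
  refine ⟨fun μ _ D hD => final μ D hD, fun h => ?_⟩
  obtain ⟨f, hf, h1⟩ := final (volume : Measure ℂ) ∅ countable_empty
  obtain ⟨θ, ⟨-, hA, hs, hV, -⟩, h2⟩ := (h1.and (h f hf)).exists
  rcases h2 with h2 | h2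
  · exact hA 2 (by norm_num) 1 one_pos (h2 2 (by norm_num) 1 one_pos)
  · have e1 := measure_mono_null (hs 2 (by norm_num) 1 one_pos) hV
    have e2 := h2 2 (by norm_num) 1 one_pos
    have e3 : volume (univ : Set ℂ) ≤ 0 := by
      rw [← union_compl_self (V f (Complex.exp (θ * Complex.I))
        (stolz (Complex.exp (θ * Complex.I)) 2 1))]
      refine (measure_union_le _ _).trans ?_
      rw [e1, e2, add_zero]
    have e4 : 0 < volume (univ : Set ℂ) := isOpen_univ.measure_pos _ univ_nonempty
    exact absurd e3 (not_le.2 e4)

end Pool.Agent.Results.MP_31144c_an.TangentialNullValues
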